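import Pool.Agent.Helper54.PT.DefsG
import Pool.Agent.Helper3.TW.D5

/-!
Basic lemmas for the TG modules F4, F5, F6, F7.
-/

set_option autoImplicit false
set_option linter.unusedSectionVars false

namespace Pool.Agent.Helper54.PT.H14

open Finset Module

section

variable {ℓ : ℕ} [Fact ℓ.Prime] {ι : Type} [Fintype ι] [DecidableEq ι] {a : ι → ℕ} {i₀ : ι}

theorem ext_smul (c : ZMod ℓ) (v : {j : ι // j ≠ i₀} → ZMod ℓ) (i : ι) :
    ext a i₀ (c • v) i = c * ext a i₀ v i := by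
  unfold ext
  split_ifs
  · rw [mul_neg]
    congr 1
    rw [mul_left_comm]
    congr 1
    rw [Finset.mul_sum]
    refine sum_congr rfl fun j _ => ?_
    rw [Pi.smul_apply, smul_eq_mul]
    ring
  · rfl

/-- `ext` as a linear map -/
noncomputable def extL (a : ι → ℕ) (i₀ : ι) (i : ι) :
    ({j : ι // j ≠ i₀} → ZMod ℓ) →ₗ[ZMod ℓ] ZMod ℓ where
  toFun v := ext a i₀ v i
  map_add' v w := by rw [ext_add]; rfl
  map_smul' c v := by rw [ext_smul]; rfl

theorem ext_lin {T : Type} [Fintype T] (s : T → ZMod ℓ) (x : T → {j : ι // j ≠ i₀} → ZMod ℓ)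
    (i : ι) : ext a i₀ (fun j => ∑ t', s t' * x t' j) i = ∑ t', s t' * ext a i₀ (x t') i := by
  have h : (fun j => ∑ t', s t' * x t' j) = ∑ t', s t' • x t' := by
    funext j
    rw [Finset.sum_apply]
    rfl
  rw [h]
  have := map_sum (extL a i₀ i) (fun t' => s t' • x t') univ
  rw [show ext a i₀ (∑ t', s t' • x t') i = extL a i₀ i (∑ t', s t' • x t') from rfl, this]
  refine sum_congr rfl fun t' _ => ?_
  rw [map_smul]
  rfl

theorem ext_of_ne (v : {j : ι // j ≠ i₀} → ZMod ℓ) {i : ι} (h : i ≠ i₀) :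
    ext a i₀ v i = v ⟨i, h⟩ := by
  unfold ext
  rw [dif_neg h]

theorem ext_sum (ha : ¬ ℓ ∣ a i₀) (v : {j : ι // j ≠ i₀} → ZMod ℓ) :
    ∑ j, (a j : ZMod ℓ) * ext a i₀ v j = 0 := by
  have ha0 : (a i₀ : ZMod ℓ) ≠ 0 := by rwa [Ne, ZMod.natCast_eq_zero_iff]
  rw [← add_sum_erase _ _ (mem_univ i₀)]
  have e : ∑ j ∈ univ.erase i₀, (a j : ZMod ℓ) * ext a i₀ v j
      = ∑ j : {j : ι // j ≠ i₀}, (a j.1 : ZMod ℓ) * v j := by
    rw [Finset.sum_subtype (univ.erase i₀) (p := fun j => j ≠ i₀) (by simp)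
        (fun j => (a j : ZMod ℓ) * ext a i₀ v j)]
    refine sum_congr rfl fun j _ => ?_
    rw [ext_of_ne _ j.2]
  rw [e]
  unfold ext
  rw [dif_pos rfl]
  field_simp
  ring

theorem asum_ne (hs : ¬ ℓ ∣ ∑ i, a i) : asum ℓ a ≠ 0 := by
  unfold asum
  rw [← Nat.cast_sum]
  rwa [Ne, ZMod.natCast_eq_zero_iff]

/-- nondegeneracy of the form `∑ a_i v_i u_i` -/
theorem ext_nondeg (ha : ∀ i, ¬ ℓ ∣ a i) (hs : ¬ ℓ ∣ ∑ i, a i)
    (v : {j : ι // j ≠ i₀} → ZMod ℓ)
    (h : ∀ u : {j : ι // j ≠ i₀} → ZMod ℓ, ∑ i, (a i : ZMod ℓ) * (ext a i₀ v i * ext a i₀ u i) = 0) :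
    v = 0 := by
  have ha0 : ∀ i, (a i : ZMod ℓ) ≠ 0 := fun i => by
    rw [Ne, ZMod.natCast_eq_zero_iff]; exact ha i
  have key : ∀ j : {j : ι // j ≠ i₀}, ext a i₀ v j.1 = ext a i₀ v i₀ := by
    intro j
    have h1 := h (Pi.single j 1)
    have e1 : ext a i₀ (Pi.single j (1 : ZMod ℓ)) i₀ = -((a i₀ : ZMod ℓ)⁻¹ * a j.1) := by
      unfold ext
      rw [dif_pos rfl]
      congr 2
      rw [Finset.sum_eq_single j]
      · rw [Pi.single_eq_same, mul_one]
      · intro j' _ hj'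
        rw [Pi.single_eq_of_ne hj', mul_zero]
      · intro hj; exact absurd (mem_univ j) hj
    rw [← add_sum_erase _ _ (mem_univ i₀), e1, Finset.sum_eq_single j.1] at h1
    · rw [ext_of_ne (Pi.single j (1 : ZMod ℓ)) j.2, Pi.single_eq_same] at h1
      have h2 : (a j.1 : ZMod ℓ) * (ext a i₀ v j.1 - ext a i₀ v i₀) = 0 := by
        have h3 : (a i₀ : ZMod ℓ) * (a i₀ : ZMod ℓ)⁻¹ = 1 := mul_inv_cancel₀ (ha0 i₀)
        linear_combination h1 + (a j.1 : ZMod ℓ) * ext a i₀ v i₀ * h3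
      have h4 := (mul_eq_zero.1 h2).resolve_left (ha0 _)
      exact sub_eq_zero.1 h4
    · intro b hb hbj
      rw [mem_erase] at hb
      rw [ext_of_ne (Pi.single j (1 : ZMod ℓ)) hb.1, Pi.single_eq_of_ne, mul_zero, mul_zero]
      intro h5
      exact hbj (congrArg Subtype.val h5)
    · intro hj
      exact absurd (mem_erase.2 ⟨j.2, mem_univ _⟩) hj
  have key2 : ∀ i, ext a i₀ v i = ext a i₀ v i₀ := by
    intro i
    by_cases hi : i = i₀
    · rw [hi]
    · exact key ⟨i, hi⟩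
  have h5 := ext_sum (ha i₀) v
  have h6 : ∑ j, (a j : ZMod ℓ) * ext a i₀ v j = asum ℓ a * ext a i₀ v i₀ := by
    unfold asum
    rw [Finset.sum_mul]
    exact sum_congr rfl fun j _ => by rw [key2 j]
  rw [h6] at h5
  have h7 := (mul_eq_zero.1 h5).resolve_left (asum_ne hs)
  funext j
  have h8 := key2 j.1
  rw [ext_of_ne _ j.2, h7] at h8
  exact h8

end

theorem cast_one {ι : Type} {a : ι → ℕ} (ha : ∀ i, ¬ 2 ∣ a i) (i : ι) : (a i : ZMod 2) = 1 := by
  have h : (a i : ZMod 2) ≠ 0 := by rw [Ne, ZMod.natCast_eq_zero_iff]; exact ha i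
  have : ∀ x : ZMod 2, x ≠ 0 → x = 1 := by decide
  exact this _ h

/-- symmetric double sums with zero diagonal vanish in characteristic two -/
theorem symm_zero {T : Type} [Fintype T] [DecidableEq T] (f : T → T → ZMod 2)
    (hf : ∀ i m, f i m = f m i) (h0 : ∀ i, f i i = 0) : ∑ i, ∑ m, f i m = 0 := by
  rw [← Finset.sum_product']
  refine Finset.sum_involution (fun x _ => (x.2, x.1)) ?_ ?_ ?_ ?_
  · intro x _
    rw [hf x.2 x.1]
    exact CharTwo.add_self_eq_zero _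
  · intro x _ hx h
    apply hx
    have h1 : x.2 = x.1 := congrArg Prod.fst h
    rw [h1]
    exact h0 _
  · intro x _
    exact mem_product.2 ⟨mem_univ _, mem_univ _⟩
  · intro x _
    rfl

end Pool.Agent.Helper54.PT.H14
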