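import Pool.Agent.Helper14.TG.Base

/-!
Module F4: the parity theorem in matrix form.
-/

set_option autoImplicit false
set_option linter.unusedSectionVars false

namespace Pool.Agent.Helper54.PT.H14.F4

open Finset Module

variable {ι : Type} [Fintype ι] [DecidableEq ι] {a : ι → ℕ} {i₀ : ι}

theorem qG_add (ha : ∀ i, ¬ 2 ∣ a i) (g : ι → ZMod 2 × ZMod 2) (w w' : LSG 2 i₀) :
    qG a i₀ g (w + w') = qG a i₀ g w + qG a i₀ g w' + bG a i₀ w w' := by
  unfold qG bG
  rw [← Finset.sum_add_distrib, ← Finset.sum_add_distrib]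
  refine sum_congr rfl fun i _ => ?_
  unfold exG pzG
  rw [Prod.fst_add, Prod.snd_add, ext_add, ext_add, cast_one ha i]
  simp only [Pi.add_apply]
  have key : ∀ x x' z z' p q : ZMod 2, (x + x') * (z + z') + ((x + x') * q - (z + z') * p) =
      x * z + (x * q - z * p) + (x' * z' + (x' * q - z' * p)) + 1 * (x * z' - z * x') := by decide
  exact key _ _ _ _ _ _

variable {T : Type} [Fintype T] [DecidableEq T]

theorem bG_add_left (w₁ w₂ w' : LSG 2 i₀) :
    bG a i₀ (w₁ + w₂) w' = bG a i₀ w₁ w' + bG a i₀ w₂ w' := by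
  unfold bG
  rw [← Finset.sum_add_distrib]
  refine sum_congr rfl fun i _ => ?_
  unfold exG pzG
  rw [Prod.fst_add, Prod.snd_add, ext_add, ext_add]
  simp only [Pi.add_apply]
  ring

theorem bG_add_right (w₁ w₂ w' : LSG 2 i₀) :
    bG a i₀ w' (w₁ + w₂) = bG a i₀ w' w₁ + bG a i₀ w' w₂ := by
  unfold bG
  rw [← Finset.sum_add_distrib]
  refine sum_congr rfl fun i _ => ?_
  unfold exG pzG
  rw [Prod.fst_add, Prod.snd_add, ext_add, ext_add]
  simp only [Pi.add_apply]
  ring

theorem bG_smul_left (c : ZMod 2) (w w' : LSG 2 i₀) :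
    bG a i₀ (c • w) w' = c * bG a i₀ w w' := by
  unfold bG
  rw [Finset.mul_sum]
  refine sum_congr rfl fun i _ => ?_
  unfold exG pzG
  rw [Prod.smul_fst, Prod.smul_snd, ext_smul, ext_smul]
  ring

theorem bG_smul_right (c : ZMod 2) (w w' : LSG 2 i₀) :
    bG a i₀ w' (c • w) = c * bG a i₀ w' w := by
  unfold bG
  rw [Finset.mul_sum]
  refine sum_congr rfl fun i _ => ?_
  unfold exG pzG
  rw [Prod.smul_fst, Prod.smul_snd, ext_smul, ext_smul]
  ring

theorem bG_zero_right (w : LSG 2 i₀) : bG a i₀ w 0 = 0 := by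
  have := bG_smul_right (a := a) 0 (0 : LSG 2 i₀) w
  rwa [zero_smul, zero_mul] at this

/-- the bilinear form on `T → LSG` -/
noncomputable def BB (a : ι → ℕ) (i₀ : ι) (T : Type) [Fintype T] :
    (T → LSG 2 i₀) →ₗ[ZMod 2] (T → LSG 2 i₀) →ₗ[ZMod 2] ZMod 2 :=
  LinearMap.mk₂ (ZMod 2) (fun x y => ∑ t, bG a i₀ (x t) (y t))
    (by
      intro x x' y
      rw [← Finset.sum_add_distrib]
      exact Finset.sum_congr rfl fun t _ => bG_add_left _ _ _)
    (by
      intro c x y
      rw [Finset.smul_sum]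
      exact Finset.sum_congr rfl fun t _ => bG_smul_left _ _ _)
    (by
      intro x y y'
      rw [← Finset.sum_add_distrib]
      exact Finset.sum_congr rfl fun t _ => bG_add_right _ _ _)
    (by
      intro c x y
      rw [Finset.smul_sum]
      exact Finset.sum_congr rfl fun t _ => bG_smul_right _ _ _)

theorem BB_apply (x y : T → LSG 2 i₀) : BB a i₀ T x y = ∑ t, bG a i₀ (x t) (y t) := rfl

theorem bG_nondeg (ha : ∀ i, ¬ 2 ∣ a i) (hs : ¬ 2 ∣ ∑ i, a i) (w : LSG 2 i₀)
    (h : ∀ w', bG a i₀ w w' = 0) : w = 0 := by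
  apply Prod.ext
  · apply ext_nondeg ha hs w.1
    intro u
    have h1 := h (0, u)
    unfold bG exG pzG at h1
    rw [← h1]
    refine sum_congr rfl fun i _ => ?_
    simp only [ext_zero, mul_zero, sub_zero]
  · apply ext_nondeg ha hs w.2
    intro u
    have h1 := h (u, 0)
    unfold bG exG pzG at h1
    rw [← neg_zero, ← h1, ← Finset.sum_neg_distrib]
    refine sum_congr rfl fun i _ => ?_
    simp only [ext_zero, mul_zero, zero_sub]
    ring

theorem BB_nondeg (ha : ∀ i, ¬ 2 ∣ a i) (hs : ¬ 2 ∣ ∑ i, a i) (x : T → LSG 2 i₀)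
    (h : ∀ y, BB a i₀ T x y = 0) : x = 0 := by
  funext t
  apply bG_nondeg ha hs
  intro e
  have h1 := h (Pi.single t e)
  rw [BB_apply, Finset.sum_eq_single t] at h1
  · simpa using h1
  · intro t' _ ht'
    rw [Pi.single_eq_of_ne ht']
    exact bG_zero_right _
  · intro ht
    exact absurd (Finset.mem_univ t) ht

/-- the graph map -/
noncomputable def GG (i₀ : ι) (S : T → T → ZMod 2) :
    (T → {j : ι // j ≠ i₀} → ZMod 2) →ₗ[ZMod 2] (T → LSG 2 i₀) where
  toFun x t := (x t, fun j => ∑ t', S t t' * x t' j)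
  map_add' x y := by
    funext t
    apply Prod.ext
    · rfl
    · funext j
      simp only [Pi.add_apply, Prod.snd_add]
      rw [← Finset.sum_add_distrib]
      exact Finset.sum_congr rfl fun t' _ => by ring
  map_smul' c x := by
    funext t
    apply Prod.ext
    · rfl
    · funext j
      simp only [Pi.smul_apply, Prod.smul_snd, RingHom.id_apply, smul_eq_mul, Finset.mul_sum]
      exact Finset.sum_congr rfl fun t' _ => by ring

theorem GG_inj (S : T → T → ZMod 2) : Function.Injective (GG i₀ S) := by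
  intro x y h
  funext t
  have := congrArg Prod.fst (congrFun h t)
  exact this

/-- product of submodules -/
noncomputable def piEquiv (L : T → Submodule (ZMod 2) (LSG 2 i₀)) :
    (Submodule.pi Set.univ L) ≃ₗ[ZMod 2] (∀ t, L t) where
  toFun x t := ⟨x.1 t, x.2 t (Set.mem_univ t)⟩
  map_add' _ _ := rfl
  map_smul' _ _ := rfl
  invFun y := ⟨fun t => (y t).1, fun t _ => (y t).2⟩
  left_inv _ := rfl
  right_inv _ := rfl

theorem rk_pi (L : T → Submodule (ZMod 2) (LSG 2 i₀)) :
    finrank (ZMod 2) (Submodule.pi Set.univ L : Submodule (ZMod 2) (T → LSG 2 i₀)) =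
      ∑ t, finrank (ZMod 2) (L t) := by
  rw [(piEquiv L).finrank_eq, Module.finrank_pi_fintype]

theorem card_comap (S : T → T → ZMod 2) (L : T → Submodule (ZMod 2) (LSG 2 i₀))
    [DecidablePred fun x : T → {j : ι // j ≠ i₀} → ZMod 2 =>
        ∀ t, ((x t, fun j => ∑ t', S t t' * x t' j) : LSG 2 i₀) ∈ L t] :
    (univ.filter fun x : T → {j : ι // j ≠ i₀} → ZMod 2 =>
        ∀ t, ((x t, fun j => ∑ t', S t t' * x t' j) : LSG 2 i₀) ∈ L t).card =
      2 ^ finrank (ZMod 2) (LinearMap.range (GG i₀ S) ⊓ Submodule.pi Set.univ L :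
        Submodule (ZMod 2) (T → LSG 2 i₀)) := by
  classical
  rw [← Submodule.map_comap_eq,
    ← (Submodule.equivMapOfInjective (GG i₀ S) (GG_inj S)
      (Submodule.comap (GG i₀ S) (Submodule.pi Set.univ L))).finrank_eq]
  have h1 : Nat.card (Submodule.comap (GG i₀ S) (Submodule.pi Set.univ L)) =
      2 ^ finrank (ZMod 2) (Submodule.comap (GG i₀ S) (Submodule.pi Set.univ L)) := by
    have := Module.natCard_eq_pow_finrank (K := ZMod 2)
      (V := Submodule.comap (GG i₀ S) (Submodule.pi Set.univ L))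
    rwa [Nat.card_zmod] at this
  rw [← h1, ← Fintype.card_subtype, ← Nat.card_eq_fintype_card]
  refine Nat.card_congr (Equiv.subtypeEquivRight fun x => ?_)
  constructor
  · intro h t _
    exact h t
  · intro h t
    exact h t (Set.mem_univ t)

theorem symS (S : T → T → ZMod 2) (hS : ∀ t t', S t t' = S t' t) (a b : T → ZMod 2) :
    ∑ t, a t * ∑ t', S t t' * b t' = ∑ t, (∑ t', S t t' * a t') * b t := by
  simp_rw [Finset.mul_sum, Finset.sum_mul]
  rw [Finset.sum_comm]
  refine Finset.sum_congr rfl fun t _ => Finset.sum_congr rfl fun t' _ => ?_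
  rw [hS t' t]
  ring

theorem Q_graph (S : T → T → ZMod 2) (hS : ∀ t t', S t t' = S t' t) (hS0 : ∀ t, S t t = 0)
    (g : T → ι → ZMod 2) (x : T → {j : ι // j ≠ i₀} → ZMod 2) :
    ∑ t, qG a i₀ (fun i => (g t i, ∑ t', S t t' * g t' i)) (GG i₀ S x t) = 0 := by
  unfold qG
  rw [Finset.sum_comm]
  refine Finset.sum_eq_zero fun i _ => ?_
  have e0 : ∀ t, (exG a i₀ (GG i₀ S x t) i) =
      (ext a i₀ (x t) i, ∑ t', S t t' * ext a i₀ (x t') i) := by
    intro t
    unfold exG
    apply Prod.ext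
    · rfl
    · exact ext_lin _ _ _
  simp only [e0, pzG]
  have e1 : ∑ t, ext a i₀ (x t) i * ∑ t', S t t' * ext a i₀ (x t') i = 0 := by
    have := symm_zero (fun t t' => ext a i₀ (x t) i * (S t t' * ext a i₀ (x t') i))
      (fun t t' => by rw [hS t t']; ring) (fun t => by rw [hS0]; ring)
    simpa only [Finset.mul_sum] using this
  have e2 := symS S hS (fun t => ext a i₀ (x t) i) (fun t => g t i)
  have h2 : ∀ a : ZMod 2, a - a = 0 := by decide
  rw [Finset.sum_add_distrib, e1, zero_add, Finset.sum_sub_distrib, e2, h2]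

end Pool.Agent.Helper54.PT.H14.F4

namespace Pool.Agent.Helper54.PT

open Finset Module H14 H14.F4

variable {ι : Type} [Fintype ι] [DecidableEq ι] {a : ι → ℕ} {i₀ : ι}

open Classical in
/-- F4: the parity theorem in matrix form -/
theorem parity_matG {T : Type} [Fintype T] [DecidableEq T] (S : T → T → ZMod 2)
    (hS : ∀ t t', S t t' = S t' t) (hS0 : ∀ t, S t t = 0) (g : T → ι → ZMod 2)
    (ha : ∀ i, ¬ 2 ∣ a i) (hs : ¬ 2 ∣ ∑ i, a i) (hJ : Even (Fintype.card {j : ι // j ≠ i₀}))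
    (L L' : T → Submodule (ZMod 2) (LSG 2 i₀))
    (h1 : ∀ t, finrank (ZMod 2) (L t) = Fintype.card {j : ι // j ≠ i₀})
    (h1' : ∀ t, finrank (ZMod 2) (L' t) = Fintype.card {j : ι // j ≠ i₀})
    (h2 : ∀ t, ∀ w ∈ L t, qG a i₀ (fun i => (g t i, ∑ t', S t t' * g t' i)) w = 0)
    (h2' : ∀ t, ∀ w ∈ L' t, qG a i₀ (fun i => (g t i, ∑ t', S t t' * g t' i)) w = 0) :
    ∃ s s' : ℕ,
      (univ.filter fun x : T → {j : ι // j ≠ i₀} → ZMod 2 =>
        ∀ t, ((x t, fun j => ∑ t', S t t' * x t' j) : LSG 2 i₀) ∈ L t).card = 2 ^ s ∧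
      (univ.filter fun x : T → {j : ι // j ≠ i₀} → ZMod 2 =>
        ∀ t, ((x t, fun j => ∑ t', S t t' * x t' j) : LSG 2 i₀) ∈ L' t).card = 2 ^ s' ∧
      (s : ZMod 2) = s' + ∑ t, (finrank (ZMod 2)
        (L t ⊓ L' t : Submodule (ZMod 2) (LSG 2 i₀)) : ZMod 2) := by
  have hpar := lag_parity (V := T → LSG 2 i₀) (BB a i₀ T)
    (fun x => ∑ t, qG a i₀ (fun i => (g t i, ∑ t', S t t' * g t' i)) (x t))
    (by
      intro x y
      rw [BB_apply, ← Finset.sum_add_distrib, ← Finset.sum_add_distrib]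
      exact Finset.sum_congr rfl fun t _ => qG_add ha _ _ _)
    (BB_nondeg ha hs) (LinearMap.range (GG i₀ S)) (Submodule.pi Set.univ L)
    (Submodule.pi Set.univ L')
    (by
      rintro _ ⟨x, rfl⟩
      exact Q_graph S hS hS0 g x)
    (by
      intro x hx
      exact Finset.sum_eq_zero fun t _ => h2 t _ (hx t (Set.mem_univ t)))
    (by
      intro x hx
      exact Finset.sum_eq_zero fun t _ => h2' t _ (hx t (Set.mem_univ t)))
    (Fintype.card T * Fintype.card {j : ι // j ≠ i₀})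
    (by
      rw [LinearMap.finrank_range_of_inj (GG_inj S), Module.finrank_pi_fintype]
      simp)
    (by
      rw [rk_pi]
      simp [h1])
    (by
      rw [rk_pi]
      simp [h1'])
    (by
      rw [Module.finrank_pi_fintype]
      simp
      ring)
  refine ⟨_, _, card_comap S L, card_comap S L', ?_⟩
  have h3 : (Submodule.pi Set.univ L ⊓ Submodule.pi Set.univ L' :
      Submodule (ZMod 2) (T → LSG 2 i₀)) = Submodule.pi Set.univ (fun t => L t ⊓ L' t) := by
    ext x
    simp only [Submodule.mem_inf, Submodule.mem_pi]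
    constructor
    · rintro ⟨ha, hb⟩ t ht
      exact ⟨ha t ht, hb t ht⟩
    · intro h
      exact ⟨fun t ht => (h t ht).1, fun t ht => (h t ht).2⟩
  rw [h3, rk_pi, inf_comm (Submodule.pi Set.univ L') (LinearMap.range (GG i₀ S))] at hpar
  obtain ⟨m, hm⟩ := hJ
  have h4 := (ZMod.natCast_eq_zero_iff_even).2 hpar
  rw [hm] at h4
  push_cast at h4
  have h5 : ∀ a b c d e : ZMod 2, a + b + c + d * (e + e) = 0 → a = c + b := by decide
  exact h5 _ _ _ _ _ h4

end Pool.Agent.Helper54.PT
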