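import Pool.Agent.Helper14.TG.F4
import Pool.Agent.Helper92.TE.A5

/-!
Module F5: the parity of the formal Selmer groups.
-/

set_option autoImplicit false
set_option linter.unusedSectionVars false

namespace Pool.Agent.Helper54.PT.H14.F5

open Finset Module TEA5

variable {ι : Type} [Fintype ι] [DecidableEq ι] {a : ι → ℕ} {i₀ : ι}
  {σ : Type} [Fintype σ] [DecidableEq σ] {dR : σ → ZMod 2} {sR : σ → σ → ZMod 2}

theorem zl_eq (b y : Option σ → ZMod 2) (t : Option σ) : zl dR sR b y t = zlG dR sR b y t := by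
  cases t <;> rfl

/-- uniqueness of the extension -/
theorem ext_unique (ha : ∀ i, ¬ 2 ∣ a i) (W : ι → ZMod 2) (hW : ∑ j, W j = 0)
    (u : {j : ι // j ≠ i₀} → ZMod 2) (hu : ∀ j, u j = W j.1) (i : ι) : ext a i₀ u i = W i := by
  by_cases h : i = i₀
  · subst h
    have h1 := ext_sum (ha i) u
    rw [← add_sum_erase _ _ (mem_univ i)] at h1 hW
    have h2 : ∑ x ∈ univ.erase i, (a x : ZMod 2) * ext a i u x = ∑ x ∈ univ.erase i, W x := by
      refine sum_congr rfl fun x hx => ?_
      rw [cast_one ha, one_mul, ext_of_ne u (Finset.ne_of_mem_erase hx), hu]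
    rw [h2, cast_one ha, one_mul] at h1
    exact add_right_cancel (h1.trans hW.symm)
  · rw [ext_of_ne u h, hu]

/-- the graph at a prime of `D` -/
noncomputable def gm (a : ι → ℕ) (i₀ : ι) (A : ι → ι → Option σ → ZMod 2) (X : PData 2 σ)
    (D : Finset X.P) (p : D) :
    ({j : ι // j ≠ i₀} → ZMod 2) →ₗ[ZMod 2] LSG 2 i₀ where
  toFun v := (v, fun j => (∑ p' : D, if p' = p then 0 else X.sym p' p) * v j +
    ∑ s, tauG a i₀ A v j s * X.xx p s)
  map_add' v v' := by
    apply Prod.ext
    · rfl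
    · funext j
      simp only [map_add, Pi.add_apply, Prod.snd_add, add_mul, Finset.sum_add_distrib]
      ring
  map_smul' c v := by
    apply Prod.ext
    · rfl
    · funext j
      have h : tauG a i₀ A (c • v) = c • tauG a i₀ A v := by
        have hc : ∀ c : ZMod 2, c = 0 ∨ c = 1 := by decide
        rcases hc c with rfl | rfl
        · rw [zero_smul, zero_smul, map_zero]
        · rw [one_smul, one_smul]
      simp only [h, Pi.smul_apply, Prod.smul_snd, RingHom.id_apply, smul_eq_mul, Finset.mul_sum]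
      rw [mul_add, Finset.mul_sum]
      congr 1
      · ring
      · exact Finset.sum_congr rfl fun s _ => by ring

theorem gm_inj (A : ι → ι → Option σ → ZMod 2) (X : PData 2 σ) (D : Finset X.P) (p : D) :
    Function.Injective (gm a i₀ A X D p) := by
  intro v v' h
  exact congrArg Prod.fst h

theorem mem_range_gm (A : ι → ι → Option σ → ZMod 2) (X : PData 2 σ) (D : Finset X.P) (p : D)
    (w : LSG 2 i₀) : w ∈ LinearMap.range (gm a i₀ A X D p) ↔
      ∀ j, w.2 j = (∑ p' : D, if p' = p then 0 else X.sym p' p) * w.1 j +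
        ∑ s, tauG a i₀ A w.1 j s * X.xx p s := by
  constructor
  · rintro ⟨v, rfl⟩ j
    rfl
  · intro h
    exact ⟨w.1, Prod.ext rfl (funext fun j => (h j).symm)⟩

/-- vectors with first component zero -/
def Lz (i₀ : ι) : Submodule (ZMod 2) (LSG 2 i₀) :=
  LinearMap.ker (LinearMap.fst (ZMod 2) ({j : ι // j ≠ i₀} → ZMod 2)
    ({j : ι // j ≠ i₀} → ZMod 2))

theorem mem_Lz (w : LSG 2 i₀) : w ∈ Lz i₀ ↔ w.1 = 0 := Iff.rfl

theorem finrank_Lz : finrank (ZMod 2) (Lz i₀) = Fintype.card {j : ι // j ≠ i₀} := by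
  have h := LinearMap.finrank_range_add_finrank_ker
    (LinearMap.fst (ZMod 2) ({j : ι // j ≠ i₀} → ZMod 2) ({j : ι // j ≠ i₀} → ZMod 2))
  have h2 : LinearMap.range (LinearMap.fst (ZMod 2) ({j : ι // j ≠ i₀} → ZMod 2)
      ({j : ι // j ≠ i₀} → ZMod 2)) = ⊤ :=
    LinearMap.range_eq_top.2 Prod.fst_surjective
  have e1 : finrank (ZMod 2) ({j : ι // j ≠ i₀} → ZMod 2) = Fintype.card {j : ι // j ≠ i₀} := by
    simp
  have e2 : finrank (ZMod 2) (({j : ι // j ≠ i₀} → ZMod 2) × ({j : ι // j ≠ i₀} → ZMod 2)) =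
      Fintype.card {j : ι // j ≠ i₀} + Fintype.card {j : ι // j ≠ i₀} := by
    rw [Module.finrank_prod, e1]
  rw [h2, finrank_top, e1, e2] at h
  exact Nat.add_left_cancel h

/-- the values of the graph at all indices -/
theorem ext_gm (ha : ∀ i, ¬ 2 ∣ a i) (hs : ¬ 2 ∣ ∑ i, a i) {A : ι → ι → Option σ → ZMod 2}
    (hA : ∀ i m s, A i m s = A m i s) (X : PData 2 σ) (D : Finset X.P) (p : D)
    {w : LSG 2 i₀} (hw : w ∈ LinearMap.range (gm a i₀ A X D p)) (i : ι) :
    ext a i₀ w.2 i = (∑ p' : D, if p' = p then 0 else X.sym p' p) * ext a i₀ w.1 i +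
      ∑ m, (ext a i₀ w.1 i + ext a i₀ w.1 m) * ∑ s, X.xx p s * A m i s := by
  rw [mem_range_gm] at hw
  generalize (∑ p' : D, if p' = p then 0 else X.sym p' p) = κ at hw ⊢
  have hx : ∑ j, ext a i₀ w.1 j = 0 := by
    have := ext_sum (ha i₀) w.1
    rw [← this]
    exact sum_congr rfl fun j _ => by rw [cast_one ha, one_mul]
  have hasum : asum 2 a = 1 := by
    have h1 := asum_ne (ℓ := 2) hs
    have : ∀ x : ZMod 2, x ≠ 0 → x = 1 := by decide
    exact this _ h1
  refine ext_unique ha (fun i => κ * ext a i₀ w.1 i +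
      ∑ m, (ext a i₀ w.1 i + ext a i₀ w.1 m) * ∑ s, X.xx p s * A m i s) ?_ w.2 ?_ i
  · rw [Finset.sum_add_distrib, ← Finset.mul_sum, hx, mul_zero, zero_add]
    apply symm_zero
    · intro i m
      rw [add_comm (ext a i₀ w.1 i)]
      congr 1
      exact sum_congr rfl fun s _ => by rw [hA m i s]
    · intro i
      rw [CharTwo.add_self_eq_zero, zero_mul]
  · intro j
    rw [hw j, ext_of_ne w.1 j.2]
    congr 1
    have : ∀ s, tauG a i₀ A w.1 j s =
        ∑ m, (ext a i₀ w.1 j.1 + ext a i₀ w.1 m) * A m j.1 s := by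
      intro s
      change ∑ m, (a m : ZMod 2) * (asum 2 a)⁻¹ * (ext a i₀ w.1 j.1 - ext a i₀ w.1 m) *
        A m j.1 s = _
      refine sum_congr rfl fun m _ => ?_
      rw [cast_one ha, hasum, CharTwo.sub_eq_add]
      simp
    simp only [this, Finset.sum_mul, Finset.mul_sum]
    rw [Finset.sum_comm]
    refine sum_congr rfl fun m _ => sum_congr rfl fun s _ => ?_
    rw [ext_of_ne w.1 j.2]
    ring

/-- the quadratic form vanishes on the graph -/
theorem qG_gm (ha : ∀ i, ¬ 2 ∣ a i) (hs : ¬ 2 ∣ ∑ i, a i) {A : ι → ι → Option σ → ZMod 2}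
    (hA : ∀ i m s, A i m s = A m i s) (X : PData 2 σ) (D : Finset X.P) (p : D)
    {w : LSG 2 i₀} (hw : w ∈ LinearMap.range (gm a i₀ A X D p)) :
    qG a i₀ (fun i => (0, ∑ s, X.xx p s * ∑ m ∈ univ.erase i, A i m s)) w = 0 := by
  have hz := ext_gm ha hs hA X D p hw
  have hx : ∑ j, ext a i₀ w.1 j = 0 := by
    have := ext_sum (ha i₀) w.1
    rw [← this]
    exact sum_congr rfl fun j _ => by rw [cast_one ha, one_mul]
  generalize (∑ p' : D, if p' = p then 0 else X.sym p' p) = κ at hz
  unfold qG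
  have key : ∀ i, (exG a i₀ w i).1 * (exG a i₀ w i).2 +
      pzG (exG a i₀ w i) ((0, ∑ s, X.xx p s * ∑ m ∈ univ.erase i, A i m s) :
        ZMod 2 × ZMod 2) =
      κ * ext a i₀ w.1 i + ∑ m, if m = i then 0 else
        ext a i₀ w.1 i * ext a i₀ w.1 m * ∑ s, X.xx p s * A i m s := by
    intro i
    have e1 : (exG a i₀ w i).1 = ext a i₀ w.1 i := rfl
    have e2 : (exG a i₀ w i).2 = ext a i₀ w.2 i := rfl
    unfold pzG
    rw [e1, e2, hz i]
    simp only [mul_zero, sub_zero]
    have hsq : ext a i₀ w.1 i * ext a i₀ w.1 i = ext a i₀ w.1 i := by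
      have : ∀ x : ZMod 2, x * x = x := by decide
      exact this _
    have e3 : ∑ s, X.xx p s * ∑ m ∈ univ.erase i, A i m s =
        ∑ m ∈ univ.erase i, ∑ s, X.xx p s * A i m s := by
      rw [Finset.sum_comm]
      exact sum_congr rfl fun s _ => by rw [Finset.mul_sum]
    rw [e3]
    have e4 : ∀ m, ∑ s, X.xx p s * A m i s = ∑ s, X.xx p s * A i m s := fun m =>
      sum_congr rfl fun s _ => by rw [hA m i s]
    simp only [e4]
    rw [← add_sum_erase univ (fun m => (ext a i₀ w.1 i + ext a i₀ w.1 m) *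
      ∑ s, X.xx p s * A i m s) (mem_univ i), CharTwo.add_self_eq_zero, zero_mul, zero_add,
      ← add_sum_erase univ (fun m => if m = i then 0 else
        ext a i₀ w.1 i * ext a i₀ w.1 m * ∑ s, X.xx p s * A i m s) (mem_univ i), if_pos rfl,
      zero_add]
    have e5 : ∑ m ∈ univ.erase i, (if m = i then 0 else
        ext a i₀ w.1 i * ext a i₀ w.1 m * ∑ s, X.xx p s * A i m s) =
        ∑ m ∈ univ.erase i, ext a i₀ w.1 i * ext a i₀ w.1 m * ∑ s, X.xx p s * A i m s :=
      sum_congr rfl fun m hm => by rw [if_neg (Finset.ne_of_mem_erase hm)]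
    rw [e5, mul_add, Finset.mul_sum, Finset.mul_sum, add_assoc, ← Finset.sum_add_distrib]
    congr 1
    · rw [mul_left_comm, hsq]
    · refine sum_congr rfl fun m _ => ?_
      have : ∀ x y c : ZMod 2, x * ((x + y) * c) + x * c = x * y * c := by decide
      exact this _ _ _
  rw [Finset.sum_congr rfl fun i _ => key i, Finset.sum_add_distrib, ← Finset.mul_sum, hx,
    mul_zero, zero_add]
  apply symm_zero
  · intro i m
    by_cases h : m = i
    · rw [if_pos h, if_pos h.symm]
    · rw [if_neg h, if_neg (Ne.symm h), mul_comm (ext a i₀ w.1 i)]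
      congr 1
      exact sum_congr rfl fun s _ => by rw [hA i m s]
  · intro i
    rw [if_pos rfl]

end Pool.Agent.Helper54.PT.H14.F5

namespace Pool.Agent.Helper54.PT

open Finset Module H14 H14.F5

variable {ι : Type} [Fintype ι] [DecidableEq ι] {σ : Type} [Fintype σ]
  [DecidableEq σ] {a : ι → ℕ} {i₀ : ι} {dR : σ → ZMod 2} {sR : σ → σ → ZMod 2}
  {A : ι → ι → Option σ → ZMod 2} {M : Option σ → ZMod 2 → Submodule (ZMod 2) (LSG 2 i₀)}

open Classical in
/-- F5: the parity of the formal Selmer groups (uses F4) -/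
theorem parity_HMG (hM : LDG a i₀ dR sR A M)
    (hq : ∀ t c, ∀ w ∈ M t c, qG a i₀ (gG dR sR A t) w = 0)
    (ha : ∀ i, ¬ 2 ∣ a i) (hs : ¬ 2 ∣ ∑ i, a i) (hJ : Even (Fintype.card {j : ι // j ≠ i₀}))
    (hA : ∀ i m s, A i m s = A m i s) (X : PData 2 σ) (D : Finset X.P) :
    ∃ s s' : ℕ, (GD X (tauG a i₀ A) (HMG i₀ dR sR M) D).card = 2 ^ s ∧
      (univ.filter fun b : Option σ → {j : ι // j ≠ i₀} → ZMod 2 =>
        HMG i₀ dR sR M b 0 0).card = 2 ^ s' ∧
      (s : ZMod 2) = s' + ∑ t, (finrank (ZMod 2)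
        (M t (kap X D t) ⊓ M t 0 : Submodule (ZMod 2) (LSG 2 i₀)) : ZMod 2) := by
  have hz : (fun s => ∑ p : D, X.xx p s * (0 : D → ZMod 2) p) =
      (0 : Option σ → ZMod 2) := by
    funext s; simp
  set g : (Option σ ⊕ D) → ι → ZMod 2 := fun t i =>
    Sum.elim (fun s => ∑ m ∈ univ.erase i, A i m s) (0 : D → ZMod 2) t with hg
  have hsumg_l : ∀ t i, ∑ t', TEA5.SS dR sR X D (Sum.inl t) t' * g t' i = (gG dR sR A t i).2 := by
    intro t i
    simp only [hg]
    rw [TEA5.sum_inl, hz, zl_eq]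
    rfl
  have hsumg_r : ∀ p i, ∑ t', TEA5.SS dR sR X D (Sum.inr p) t' * g t' i =
      ∑ s, X.xx p s * ∑ m ∈ univ.erase i, A i m s := by
    intro p i
    simp only [hg]
    rw [TEA5.sum_inr]
    simp
  have hql : ∀ t c, ∀ w ∈ M t c, qG a i₀ (fun i => (g (Sum.inl t) i,
      ∑ t', TEA5.SS dR sR X D (Sum.inl t) t' * g t' i)) w = 0 := by
    intro t c w hw
    have h1 := hq t c w hw
    have h2 : (fun i => (g (Sum.inl t) i, ∑ t', TEA5.SS dR sR X D (Sum.inl t) t' * g t' i)) =
        gG dR sR A t := by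
      funext i
      rw [hsumg_l]
      rfl
    rw [h2]
    exact h1
  obtain ⟨s, s', hs1, hs1', hpar⟩ := parity_matG (T := Option σ ⊕ D) (a := a) (i₀ := i₀)
    (TEA5.SS dR sR X D) (TEA5.SS_symm hM.sym X D) (TEA5.SS_diag X D) g ha hs hJ
    (Sum.elim (fun t => M t (kap X D t)) (fun p => LinearMap.range (gm a i₀ A X D p)))
    (Sum.elim (fun t => M t 0) (fun _ => Lz i₀))
    (by
      rintro (t | p)
      · exact hM.dim t _
      · change finrank (ZMod 2) (LinearMap.range (gm a i₀ A X D p)) = _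
        rw [LinearMap.finrank_range_of_inj (gm_inj A X D p)]
        simp)
    (by
      rintro (t | p)
      · exact hM.dim t _
      · exact finrank_Lz)
    (by
      rintro (t | p) w hw
      · exact hql t _ w hw
      · have h2 : (fun i => (g (Sum.inr p) i, ∑ t', TEA5.SS dR sR X D (Sum.inr p) t' * g t' i)) =
            (fun i => (0, ∑ s, X.xx p s * ∑ m ∈ univ.erase i, A i m s)) := by
          funext i
          rw [hsumg_r]
          rfl
        rw [h2]
        exact qG_gm ha hs hA X D p hw)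
    (by
      rintro (t | p) w hw
      · exact hql t _ w hw
      · have h2 : (fun i => (g (Sum.inr p) i, ∑ t', TEA5.SS dR sR X D (Sum.inr p) t' * g t' i)) =
            (fun i => (0, ∑ s, X.xx p s * ∑ m ∈ univ.erase i, A i m s)) := by
          funext i
          rw [hsumg_r]
          rfl
        rw [h2]
        have hw' : w.1 = 0 := hw
        unfold qG exG pzG
        refine Finset.sum_eq_zero fun i _ => ?_
        simp only [hw', ext_zero]
        ring)
  refine ⟨s, s', ?_, ?_, ?_⟩
  · rw [← hs1]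
    symm
    refine Finset.card_equiv
      (Equiv.sumArrowEquivProdArrow (Option σ) D ({j : ι // j ≠ i₀} → ZMod 2)) ?_
    intro x
    have hmem : ∀ y, y ∈ GD X (tauG a i₀ A) (HMG i₀ dR sR M) D ↔
        (HMG i₀ dR sR M y.1 (ysum X y.2) (kap X D) ∧
          ∀ p j, pcond X (tauG a i₀ A) y.1 y.2 p j = 0) := by
      intro y
      simp only [GD, Finset.mem_filter, Finset.mem_univ, true_and]
    rw [hmem, Finset.mem_filter]
    simp only [Finset.mem_univ, true_and]
    rw [Sum.forall]
    have hx : ∀ j, (fun t' => x t' j) =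
        Sum.elim (fun s => x (Sum.inl s) j) (fun p => x (Sum.inr p) j) := by
      intro j
      funext t'
      rcases t' with t' | t' <;> rfl
    have hsum : ∀ t j, ∑ t', TEA5.SS dR sR X D t t' * x t' j = ∑ t', TEA5.SS dR sR X D t t' *
        Sum.elim (fun s => x (Sum.inl s) j) (fun p => x (Sum.inr p) j) t' := by
      intro t j
      rw [← hx j]
    apply and_congr
    · unfold HMG
      refine forall_congr' fun t => ?_
      simp only [hsum, TEA5.sum_inl, Sum.elim_inl, zl_eq]
      rfl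
    · refine forall_congr' fun p => ?_
      simp only [hsum, TEA5.sum_inr, Sum.elim_inr]
      rw [mem_range_gm]
      refine forall_congr' fun j => ?_
      simp only [pcond, Equiv.sumArrowEquivProdArrow, Equiv.coe_fn_mk]
      have e1 : ∑ p' : D, (if p' = p then 0 else (x (Sum.inr p') j - x (Sum.inr p) j) *
          X.sym p' p) = ∑ p' : D, (if p = p' then 0 else X.sym p p') * x (Sum.inr p') j +
          (∑ p' : D, if p' = p then 0 else X.sym p' p) * x (Sum.inr p) j := by
        rw [Finset.sum_mul, ← Finset.sum_add_distrib]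
        refine Finset.sum_congr rfl fun p' _ => ?_
        by_cases h : p' = p
        · rw [if_pos h, if_pos h, if_pos h.symm]; ring
        · rw [if_neg h, if_neg h, if_neg (Ne.symm h), X.sym_comm p p' (fun h' => h
            (Subtype.ext h').symm)]
          have : ∀ a b c : ZMod 2, (a - b) * c = c * a + c * b := by decide
          exact this _ _ _
      have e2 : ∑ s, (Function.comp x Sum.inl) s j * X.xx p s =
          ∑ s, X.xx p s * x (Sum.inl s) j :=
        Finset.sum_congr rfl fun s _ => mul_comm _ _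
      have key : ∀ a b c d : ZMod 2, a + b = c + d ↔ a + (b + c) - d = 0 := by decide
      refine (key _ _ _ _).trans ?_
      rw [← e1, ← e2]
      rfl
  · rw [← hs1']
    symm
    refine Finset.card_nbij' (fun x s => x (Sum.inl s)) (fun b => Sum.elim b 0) ?_ ?_ ?_ ?_
    · intro x hx
      rw [Finset.mem_coe, Finset.mem_filter] at hx
      rw [Finset.mem_coe, Finset.mem_filter]
      refine ⟨Finset.mem_univ _, ?_⟩
      have hx2 : ∀ p : D, x (Sum.inr p) = 0 := fun p => hx.2 (Sum.inr p)
      intro t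
      have h1 := hx.2 (Sum.inl t)
      simp only [Sum.elim_inl] at h1
      have hx3 : ∀ j, (fun t' => x t' j) = Sum.elim (fun s => x (Sum.inl s) j) 0 := by
        intro j
        funext t'
        rcases t' with t' | t'
        · rfl
        · exact congrFun (hx2 t') j
      have hsum : ∀ j, ∑ t', TEA5.SS dR sR X D (Sum.inl t) t' * x t' j =
          zlG dR sR (fun s => x (Sum.inl s) j) 0 t := by
        intro j
        have h4 : ∀ t', x t' j = Sum.elim (fun s => x (Sum.inl s) j) (0 : D → ZMod 2) t' :=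
          fun t' => congrFun (hx3 j) t'
        rw [Finset.sum_congr rfl fun t' _ => congrArg
          (fun z => TEA5.SS dR sR X D (Sum.inl t) t' * z) (h4 t'), TEA5.sum_inl, hz, zl_eq]
      simp only [hsum] at h1
      exact h1
    · intro b hb
      rw [Finset.mem_coe, Finset.mem_filter] at hb
      rw [Finset.mem_coe, Finset.mem_filter]
      refine ⟨Finset.mem_univ _, ?_⟩
      rintro (t | p)
      · have h1 := hb.2 t
        have hsum : ∀ j, ∑ t', TEA5.SS dR sR X D (Sum.inl t) t' *
            (Sum.elim b (0 : D → {j : ι // j ≠ i₀} → ZMod 2)) t' j =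
              zlG dR sR (fun s => b s j) 0 t := by
          intro j
          have : ∀ t', (Sum.elim b (0 : D → {j : ι // j ≠ i₀} → ZMod 2)) t' j =
              Sum.elim (fun s => b s j) (0 : D → ZMod 2) t' := by
            intro t'
            rcases t' with t' | t' <;> rfl
          simp_rw [this]
          rw [TEA5.sum_inl, hz, zl_eq]
        simp only [hsum, Sum.elim_inl]
        exact h1
      · exact (rfl : (0 : {j : ι // j ≠ i₀} → ZMod 2) = 0)
    · intro x hx
      rw [Finset.mem_coe, Finset.mem_filter] at hx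
      have hx2 : ∀ p : D, x (Sum.inr p) = 0 := fun p => hx.2 (Sum.inr p)
      funext t'
      rcases t' with t' | t'
      · rfl
      · exact (hx2 t').symm
    · intro b hb
      rfl
  · have h0 : ∀ p : D, (LinearMap.range (gm a i₀ A X D p) ⊓ Lz i₀ :
        Submodule (ZMod 2) (LSG 2 i₀)) = ⊥ := by
      intro p
      rw [Submodule.eq_bot_iff]
      intro w hw
      rw [Submodule.mem_inf, mem_range_gm, mem_Lz] at hw
      obtain ⟨h1, h2⟩ := hw
      apply Prod.ext h2
      funext j
      rw [h1 j, h2]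
      simp
    have h1 : ∑ p : D, (finrank (ZMod 2) (LinearMap.range (gm a i₀ A X D p) ⊓ Lz i₀ :
        Submodule (ZMod 2) (LSG 2 i₀)) : ZMod 2) = 0 :=
      Finset.sum_eq_zero fun p _ => by rw [h0 p, finrank_bot, Nat.cast_zero]
    rw [hpar, Fintype.sum_sum_type]
    change (s' : ZMod 2) + (∑ t, (finrank (ZMod 2)
        (M t (kap X D t) ⊓ M t 0 : Submodule (ZMod 2) (LSG 2 i₀)) : ZMod 2) +
      ∑ p : D, (finrank (ZMod 2) (LinearMap.range (gm a i₀ A X D p) ⊓ Lz i₀ :
        Submodule (ZMod 2) (LSG 2 i₀)) : ZMod 2)) = _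
    rw [h1, add_zero]

end Pool.Agent.Helper54.PT
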