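import Pool.Agent.Helper14.TG.Base
import Pool.Agent.Helper42.TW.D1
import Pool.Agent.Helper32.TW.B12B13
import Pool.Agent.Helper36.TW.C10C11

/-!
Modules F6 and F7: genericity.
-/

set_option autoImplicit false
set_option linter.unusedSectionVars false

namespace Pool.Agent.Helper54.PT.H14.F67

open Finset Module

variable {ℓ : ℕ} [Fact ℓ.Prime] {ι : Type} [Fintype ι] [DecidableEq ι] {a : ι → ℕ} {i₀ : ι}
  {σ : Type} [Fintype σ] [DecidableEq σ] {A : ι → ι → Option σ → ZMod ℓ}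

/-- the index type of ordered pairs -/
abbrev Sg (ι : Type) : Type := {p : ι × ι // p.1 ≠ p.2}

/-- `tau` in terms of `tauG` -/
theorem tau_eq (ha : ∀ i, ¬ ℓ ∣ a i) (hs : ¬ ℓ ∣ ∑ i, a i) (p : Sg ι)
    (c : Option σ → ZMod ℓ) (c₀ : ZMod ℓ)
    (hc : ∀ m n, m ≠ n → ∑ s, c s * A m n s + c₀ = if s(m, n) = s(p.1.1, p.1.2) then 1 else 0)
    (v : {j : ι // j ≠ i₀} → ZMod ℓ) (j : {j : ι // j ≠ i₀}) :
    tau a i₀ (fun p : Sg ι => p.1.1) (fun p : Sg ι => p.1.2) (fun _ _ => (0 : ZMod ℓ)) v j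
      (some p) = ∑ s, c s * tauG a i₀ A v j s + c₀ * v j := by
  have hne : ∀ r : Sg ι, r.1.1 ≠ r.1.2 := fun r => r.2
  have h1 := C11_tauX_some a (fun p : Sg ι => p.1.1) (fun p : Sg ι => p.1.2)
    (fun _ _ => (0 : ZMod ℓ)) hne (ext a i₀ v) j.1 p
  change tauX a (fun p : Sg ι => p.1.1) (fun p : Sg ι => p.1.2) (fun _ _ => (0 : ZMod ℓ))
    (ext a i₀ v) j.1 (some p) = _
  rw [h1]
  have h2 : ∑ s, c s * tauG a i₀ A v j s = ∑ m, (a m : ZMod ℓ) * (asum ℓ a)⁻¹ *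
      (ext a i₀ v j.1 - ext a i₀ v m) * ∑ s, c s * A m j.1 s := by
    simp only [Finset.mul_sum]
    rw [Finset.sum_comm]
    refine sum_congr rfl fun s _ => ?_
    change c s * ∑ m, (a m : ZMod ℓ) * (asum ℓ a)⁻¹ *
      (ext a i₀ v j.1 - ext a i₀ v m) * A m j.1 s = _
    rw [Finset.mul_sum]
    exact sum_congr rfl fun m _ => by ring
  have h3 : c₀ * v j = ∑ m, (a m : ZMod ℓ) * (asum ℓ a)⁻¹ *
      (ext a i₀ v j.1 - ext a i₀ v m) * c₀ := by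
    have h4 := ext_sum (ha i₀) v
    have h5 : ∑ m, (a m : ZMod ℓ) * (asum ℓ a)⁻¹ * (ext a i₀ v j.1 - ext a i₀ v m) * c₀ =
        (asum ℓ a)⁻¹ * c₀ * ext a i₀ v j.1 * asum ℓ a -
          (asum ℓ a)⁻¹ * c₀ * ∑ m, (a m : ZMod ℓ) * ext a i₀ v m := by
      unfold asum
      rw [Finset.mul_sum, Finset.mul_sum, ← Finset.sum_sub_distrib]
      exact sum_congr rfl fun m _ => by ring
    rw [h5, h4, mul_zero, sub_zero, ext_of_ne v j.2]
    have h6 := asum_ne hs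
    field_simp
  rw [h2, h3, ← Finset.sum_add_distrib]
  refine sum_congr rfl fun m _ => ?_
  by_cases hm : m = j.1
  · subst hm
    rw [sub_self]
    simp
  · have h7 := hc m j.1 hm
    have h8 : ∑ s, c s * A m j.1 s =
        (if s(m, j.1) = s(p.1.1, p.1.2) then 1 else 0) - c₀ := by
      rw [← h7]; ring
    rw [h8]
    by_cases h9 : s(p.1.1, p.1.2) = s(j.1, m)
    · rw [if_pos h9, if_pos (by rw [h9, Sym2.eq_swap])]
      ring
    · rw [if_neg h9, if_neg (fun h => h9 (by rw [← h, Sym2.eq_swap]))]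
      ring

/-- affine functions on an unlinked set -/
theorem affine (ha : ∀ i, ¬ ℓ ∣ a i) (hs : ¬ ℓ ∣ ∑ i, a i) (hA : IndA A)
    (𝒰 : Finset (({j : ι // j ≠ i₀} → ZMod ℓ) × ({j : ι // j ≠ i₀} → ZMod ℓ)))
    (hU : Unl PhiJ 𝒰) (hne : 𝒰.Nonempty)
    (h : ∀ s : Option σ, ∃ (η ω : {j : ι // j ≠ i₀} → ZMod ℓ) (c : ZMod ℓ), ∀ u ∈ 𝒰,
      ∑ j, u.2 j * tauG a i₀ A u.1 j s = ∑ j, (η j * u.1 j + ω j * u.2 j) + c)
    (p : Sg ι) : ∃ (η ω : {j : ι // j ≠ i₀} → ZMod ℓ) (c : ZMod ℓ), ∀ u ∈ 𝒰,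
      ∑ j, u.2 j * tau a i₀ (fun p : Sg ι => p.1.1) (fun p : Sg ι => p.1.2)
        (fun _ _ => (0 : ZMod ℓ)) u.1 j (some p) = ∑ j, (η j * u.1 j + ω j * u.2 j) + c := by
  obtain ⟨c, c₀, hc⟩ := hA p.1.1 p.1.2 p.2
  choose η ω d hd using h
  obtain ⟨u₀, hu₀⟩ := hne
  refine ⟨fun j => ∑ s, c s * η s j + c₀ * u₀.2 j, fun j => ∑ s, c s * ω s j + c₀ * u₀.1 j,
    ∑ s, c s * d s - c₀ * ∑ j, u₀.2 j * u₀.1 j, ?_⟩
  intro u hu
  have e1 : ∀ j, u.2 j * tau a i₀ (fun p : Sg ι => p.1.1) (fun p : Sg ι => p.1.2)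
        (fun _ _ => (0 : ZMod ℓ)) u.1 j (some p) =
      ∑ s, c s * (u.2 j * tauG a i₀ A u.1 j s) + c₀ * (u.2 j * u.1 j) := by
    intro j
    rw [tau_eq ha hs p c c₀ hc, mul_add, Finset.mul_sum]
    congr 1
    · exact sum_congr rfl fun s _ => by ring
    · ring
  have e2 : ∑ j, u.2 j * u.1 j = ∑ j, (u₀.2 j * u.1 j + u₀.1 j * u.2 j) -
      ∑ j, u₀.2 j * u₀.1 j := by
    have h1 := hU u hu u₀ hu₀
    unfold PhiJ at h1
    rw [← Finset.sum_add_distrib] at h1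
    rw [← Finset.sum_sub_distrib, ← sub_eq_zero, ← Finset.sum_sub_distrib, ← neg_zero, ← h1,
      ← Finset.sum_neg_distrib]
    exact sum_congr rfl fun j _ => by ring
  have e3 : ∑ j, ∑ s, c s * (u.2 j * tauG a i₀ A u.1 j s) =
      ∑ s, c s * (∑ j, (η s j * u.1 j + ω s j * u.2 j) + d s) := by
    rw [Finset.sum_comm]
    refine sum_congr rfl fun s _ => ?_
    rw [← hd s u hu, Finset.mul_sum]
  have e4 : ∑ s, c s * (∑ j, (η s j * u.1 j + ω s j * u.2 j) + d s) =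
      ∑ j, (∑ s, c s * η s j * u.1 j + ∑ s, c s * ω s j * u.2 j) + ∑ s, c s * d s := by
    simp only [mul_add, Finset.sum_add_distrib, Finset.mul_sum]
    congr 1
    congr 1
    · rw [Finset.sum_comm]
      exact sum_congr rfl fun j _ => sum_congr rfl fun s _ => by ring
    · rw [Finset.sum_comm]
      exact sum_congr rfl fun j _ => sum_congr rfl fun s _ => by ring
  rw [Finset.sum_congr rfl fun j _ => e1 j, Finset.sum_add_distrib, e3, e4, ← Finset.mul_sum, e2]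
  simp only [add_mul, Finset.sum_add_distrib, Finset.sum_mul, Finset.mul_sum, mul_add, mul_sub]
  have e5 : ∑ j, c₀ * (u₀.2 j * u.1 j) = ∑ j, c₀ * u₀.2 j * u.1 j :=
    sum_congr rfl fun j _ => by ring
  have e6 : ∑ j, c₀ * (u₀.1 j * u.2 j) = ∑ j, c₀ * u₀.1 j * u.2 j :=
    sum_congr rfl fun j _ => by ring
  rw [e5, e6]
  ring

end Pool.Agent.Helper54.PT.H14.F67

namespace Pool.Agent.Helper54.PT

open Finset Module H14 H14.F67

section Formal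

variable {ℓ : ℕ} [Fact ℓ.Prime] {ι : Type} [Fintype ι] [DecidableEq ι] {σ : Type} [Fintype σ]
  [DecidableEq σ] {a : ι → ℕ} {i₀ : ι} {dR : σ → ZMod ℓ} {sR : σ → σ → ZMod ℓ}
  {A : ι → ι → Option σ → ZMod ℓ} {M : Option σ → ZMod ℓ → Submodule (ZMod ℓ) (LSG ℓ i₀)}

/-- F6: genericity, `ℓ` odd -/
theorem genericA_tauG (hℓ : ℓ ≠ 2) (ha : ∀ i, ¬ ℓ ∣ a i) (hs : ¬ ℓ ∣ ∑ i, a i)
    (hA : IndA A) : GenericA (tauG a i₀ A) := by
  intro 𝒰 hU hcard hstd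
  by_contra hcon
  push Not at hcon
  have hne : 𝒰.Nonempty := by
    rw [← Finset.card_pos, hcard]
    exact pow_pos (Nat.Prime.pos Fact.out) _
  obtain ⟨r, hr⟩ := generic_tau a i₀ (fun p : Sg ι => p.1.1) (fun p : Sg ι => p.1.2)
    (fun _ _ => (0 : ZMod ℓ)) hℓ ha hs (fun r => r.2) (fun i j hij => ⟨⟨(i, j), hij⟩, rfl⟩)
    (fun 𝒰 h1 h2 => coset_of_unl 𝒰 h1 h2) 𝒰 hU hcard hstd
  exact hr (affine ha hs hA 𝒰 hU hne hcon r)

end Formal

section FormalTwo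

variable {ι : Type} [Fintype ι] [DecidableEq ι] {σ : Type} [Fintype σ]
  [DecidableEq σ] {a : ι → ℕ} {i₀ : ι} {dR : σ → ZMod 2} {sR : σ → σ → ZMod 2}
  {A : ι → ι → Option σ → ZMod 2} {M : Option σ → ZMod 2 → Submodule (ZMod 2) (LSG 2 i₀)}

/-- F7: genericity, `ℓ = 2` -/
theorem genericO_tauG (ha : ∀ i, ¬ 2 ∣ a i) (hs : ¬ 2 ∣ ∑ i, a i) (hι : 3 ≤ Fintype.card ι)
    (hA : IndA A) : GenericO (tauG a i₀ A) := by
  intro 𝒰 hU hcard hstd hstd3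
  by_contra hcon
  push Not at hcon
  have hne : 𝒰.Nonempty := by
    rw [← Finset.card_pos, hcard]
    exact pow_pos (by norm_num) _
  obtain ⟨r, hr⟩ := generic2_tau a i₀ (fun p : Sg ι => p.1.1) (fun p : Sg ι => p.1.2)
    (fun _ _ => (0 : ZMod 2)) ha hs hι (fun r => r.2) (fun i j hij => ⟨⟨(i, j), hij⟩, rfl⟩)
    (fun 𝒰 h1 h2 => coset_of_unl 𝒰 h1 h2) 𝒰 hU hcard hstd hstd3
  exact hr (affine ha hs hA 𝒰 hU hne hcon r)

end FormalTwo

end Pool.Agent.Helper54.PT
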